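import Pool.Agent.Lib.MP_aed2da_nt.E35
import Pool.Agent.Lib.MP_aed2da_nt.HTree

/-! The residue conditions of the field of the roots of three and five in plain form. -/

namespace Pool.Agent.Lib.MP_aed2da_nt.T35

lemma cd (n : ℕ) [NeZero n] (a : ℤ) : (a % (n : ℕ)).toNat = (a : ZMod n).val := by
  rw [← ZMod.val_intCast, Int.toNat_natCast]

lemma pj : P35.r = 1 ∧ P35.p = 1 ∧ P35.t0 = 3 ∧ P35.t1 = 0 ∧ P35.s0 = 0 ∧ P35.s1 = 0 :=
  ⟨rfl, rfl, rfl, rfl, rfl, rfl⟩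

lemma lit0 {x : Q P35} (h6 : IsCoprime x 6) :
    Lit.holds (P := P35) ⟨2, 2, ⟨1, 0, 1, 0⟩, ⟨0, 1, 0, 1⟩, 14⟩ x := by
  obtain ⟨u, v, h⟩ := h6
  have ha := congrArg (fun z : Q P35 => ((z.a + z.c : ℤ) : ZMod 2)) h
  simp only [Q.add_a, Q.add_c, Q.mul_a, Q.mul_c, Q.mul, Q.mulAux, pj, Q.ofNat_a, Q.ofNat_b,
    Q.ofNat_c, Q.ofNat_d, Q.one_a, Q.one_c] at ha
  push_cast at ha
  simp only [Lit.holds, Lit.code, Q.dot, cd]
  push_cast
  have key : ∀ a b c d p q r s : ZMod 2,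
      (p + r) * (a + c) + (q + s) * (b + d) = 1 →
      Nat.testBit 14 ((1 * a + 0 * b + 1 * c + 0 * d).val +
        2 * (0 * a + 1 * b + 0 * c + 1 * d).val) = true := by decide
  refine key _ _ _ _ u.a u.b u.c u.d ?_
  have h2 : (2 : ZMod 2) = 0 := rfl
  linear_combination ha - ((u.c : ZMod 2) * x.c + u.d * x.d + 3 * v.a + 3 * v.c) * h2

lemma lit1 {x t : Q P35} (h6 : IsCoprime x 6) (ht : 6 ∣ x - t ^ 2) :
    Lit.holds (P := P35) ⟨3, 3, ⟨1, 0, 0, 0⟩, ⟨0, 1, 0, 0⟩, 278⟩ x := by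
  obtain ⟨u, v, h⟩ := h6
  obtain ⟨y, hy⟩ := ht
  rw [sq] at hy
  have ha := congrArg (fun z : Q P35 => ((z.a : ℤ) : ZMod 3)) h
  have h1 := congrArg (fun z : Q P35 => ((z.a : ℤ) : ZMod 3)) hy
  have h2 := congrArg (fun z : Q P35 => ((z.b : ℤ) : ZMod 3)) hy
  simp only [Q.add_a, Q.sub_a, Q.sub_b, Q.mul_a, Q.mul_b, Q.mul, Q.mulAux, pj, Q.ofNat_a,
    Q.ofNat_b, Q.ofNat_c, Q.ofNat_d, Q.one_a] at ha h1 h2
  push_cast at ha h1 h2
  simp only [Lit.holds, Lit.code, Q.dot, cd]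
  push_cast
  have key : ∀ a b p q r s : ZMod 3, p * a + q * b = 1 → a = r * r + s * s →
      b = 2 * r * s + s * s → Nat.testBit 278 (a.val + 3 * b.val) = true := by decide
  have h3 : (3 : ZMod 3) = 0 := rfl
  simp only [one_mul, zero_mul, add_zero, zero_add]
  refine key _ _ u.a u.b t.a t.b ?_ ?_ ?_
  · linear_combination ha - ((u.c : ZMod 3) * x.c + u.d * x.d + 2 * v.a) * h3
  · linear_combination h1 + ((t.c : ZMod 3) * t.c + t.d * t.d + 2 * y.a) * h3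
  · linear_combination h2 + (2 * (t.c : ZMod 3) * t.d + t.d * t.d + 2 * y.b) * h3

lemma lit11 {x : Q P35} {p q r : ℤ} {s : ZMod 11}
    (h : (x.a : ZMod 11) + p * x.b + q * x.c + r * x.d + s ^ 2 = 0) :
    Lit.holds (P := P35) ⟨11, 1, ⟨1, p, q, r⟩, ⟨0, 0, 0, 0⟩, 1477⟩ x := by
  simp only [Lit.holds, Lit.code, Q.dot, cd]
  push_cast
  have key : ∀ z s : ZMod 11, z + s ^ 2 = 0 → Nat.testBit 1477 z.val = true := by decide
  simp only [one_mul, zero_mul, add_zero, ZMod.val_zero, mul_zero]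
  exact key _ s h

lemma good {x t : Q P35} (h6 : IsCoprime x 6) (ht : 6 ∣ x - t ^ 2) (φ : Q P35 →+* ZMod 11)
    (s : ZMod 11) (hs : φ x + s ^ 2 = 0) : Good Ls35 fm35 x := by
  refine ⟨⟨_, rfl, lit0 h6⟩, ⟨_, rfl, lit1 h6 ht⟩, ?_⟩
  obtain ⟨r1, r2⟩ := Q.rel_map φ
  rw [Q.map_eq φ] at hs
  simp only [pj] at r1 r2
  push_cast at r1 r2
  have k1 : ∀ w : ZMod 11, w * w = 1 + 1 * w → w = 4 ∨ w = 8 := by decide
  have k2 : ∀ h : ZMod 11, h * h = 3 → h = 5 ∨ h = 6 := by decide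
  have h11 : (11 : ZMod 11) = 0 := rfl
  have r3 : φ Q.gh * φ Q.gh = 3 := by linear_combination r2
  rcases k1 _ r1 with e1 | e1 <;> rcases k2 _ r3 with e2 | e2 <;> rw [e1, e2] at hs
  · exact Or.inl ⟨_, rfl, lit11 (s := s) (by
      push_cast; linear_combination hs - (x.d : ZMod 11) * h11)⟩
  · exact Or.inr (Or.inl ⟨_, rfl, lit11 (s := s) (by
      push_cast; linear_combination hs - 2 * (x.d : ZMod 11) * h11)⟩)
  · exact Or.inr (Or.inr (Or.inl ⟨_, rfl, lit11 (s := s) (by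
      push_cast; linear_combination hs - 3 * (x.d : ZMod 11) * h11)⟩))
  · exact Or.inr (Or.inr (Or.inr ⟨_, rfl, lit11 (s := s) (by
      push_cast; linear_combination hs - 4 * (x.d : ZMod 11) * h11)⟩))

theorem three {x t : Q P35} (hp : S35.Pos x) (h6 : IsCoprime x 6) (ht : 6 ∣ x - t ^ 2)
    (φ : Q P35 →+* ZMod 11) (s : ZMod 11) (hs : φ x + s ^ 2 = 0) : S3 x := by
  refine Eng.h3_35 x hp ⟨t, (Dvd.intro 3 (by norm_num)).trans ht⟩ ?_ (good h6 ht φ s hs)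
  have h := S35.prod_σ x
  have h' : 0 < ∏ i, S35.σ i x := Finset.prod_pos fun i _ => hp i
  rw [h] at h'
  exact_mod_cast h'

end Pool.Agent.Lib.MP_aed2da_nt.T35
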